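import Pool.Agent.H492.RF.Final5

/-!
# Double shuffle and linear relations: the relations in depth five

`DS R`: a solution `z` of the regularized double shuffle relations with values in a commutative `ℚ`-algebra `R`: a
map on the words in `x, y` which are empty or end in `y`, with `z 1 = 1`, `z y = 0`, `z (u ⧢ v) = z u · z v` for all
such words and `z (u * v) = z u · z v` for the stuffle product if `v` does not start with `y`. The real multiple zeta
values are a solution, the universal solution is the algebra defined by the regularized double shuffle relations.
`Fil D r k`: the span of the values of the admissible indices of weight `k` and depth at most `r`;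
`gr D r k = Fil D r k / Fil D (r - 1) k`.

**Theorem.** There is a constant `C` such that `dim gr_5 ≤ (482363/401117184) k⁴ + C (k³ + 1)` for all commutative
`ℚ`-algebras `R`, all solutions with values in `R` and all odd `k`.

So the regularized double shuffle relations imply this bound; Q1 together with the conjecture of Broadhurst and
Kreimer predicts `(435240/401117184) k⁴ + O(k³)` for the universal solution.
-/

set_option autoImplicit false

namespace Pool.Agent.Results.MP_154526_nt.DepthFiveOfDoubleShuffle

open Module Pool.Agent.H492.RF

theorem result :
    (∃ D : DS ℝ, ∀ s : List ℕ, Pool.Agent.H492.RZ.IsAdm s →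
      D.z (Pool.Agent.Q187.ZD.DS.word s) = Pool.Agent.Q187.ZD.DS.mzv s) ∧
    ∃ C : ℝ, ∀ (R : Type) [CommRing R] [Algebra ℚ R] (D : DS R) (k : ℕ), Odd k →
      Module.Finite ℚ (gr D 5 k) ∧
        (finrank ℚ (gr D 5 k) : ℝ) ≤ (482363 / 401117184) * k ^ 4 + C * (k ^ 3 + 1) := by
  obtain ⟨C, h⟩ := depth_five
  exact ⟨⟨realDS, realDS_mzv⟩, C, fun R _ _ D k hk => ⟨finite_gr D 5 k, h R D k hk⟩⟩

end Pool.Agent.Results.MP_154526_nt.DepthFiveOfDoubleShuffle
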