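import Pool.Agent.H488.W.DshB

/-!
# Double shuffle relations and near relations between multiple zeta values after damping

`H0 p`: the combinations of the words of length `p` in `ℚ + x ℚ⟨x, y⟩ y`; `RDS p`: the span of the regularized double shuffle
elements of weight `p`; `Z`: the map to the real numbers; `Linear p`: every element of `H0 p` in the kernel of `Z` is in
`RDS p` (the problem in weight `p`). `formal p` is the dimension of `H0 p` modulo `RDS p` and `missing p` the number of
independent relations of weight `p` which are not combinations of double shuffle elements.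

For a sequence `s = (k_1, …, k_r)` let `H_j(s)` be the truncated multiple zeta value, the sum over `j ≥ m_1 > … > m_r ≥ 1`, and
`T_s(x) = exp (-x) * ∑_j x^j/j! * (ζ(s) - H_j(s))` the Poisson mean of the tails, so that `T_s(0) = ζ(s)`. For a complex number
`x` let `D_x` be the linear map with `D_x(y_{k_1} … y_{k_r}) = T_(k_1, …, k_r)(x)`. So `D_0 = Z` on `H0 p`, `p ≥ 1`.
For `κ` and a scale `H` let `Near(x, H)` be the span of the near relations, the integral elements `f` of `H0 p` with coefficients
at most `H` and `|D_x(f)| ≤ H^(-κ)`. Let `x_1, …, x_m` be different nonzero algebraic numbers, `p ≥ 1`, `E ≥ 2`.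

(1) (Double shuffle elements do not survive.) Let `f_1, …, f_n` be linearly independent elements of `H0 p` with `Z(f_i) = 0`, for
example regularized double shuffle elements, and `β_1, …, β_q` linearly independent elements of the ring generated by the
algebraic numbers and the numbers `exp b`, `b` algebraic (for example the one number `1`). The numbers `β_l` and
`β_l D_{x_j}(f_i)` are linearly independent over `ℚ`, with a measure: an integral linear form in them with coefficients at
most `H`, not all zero, is at least `c H^(-κ)`.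

(2) There is a `κ` such that for all large `H`: the relations of weight `p`, the kernel of `Z`, are contained in `Near(0, H)`;
the spaces `Near(0, H), Near(x_1, H), …, Near(x_m, H)` are independent, so the sum `t(H)` of their dimensions is at most
`dim H0 p`, and `missing p + ∑ dim Near(x_j, H) ≤ formal p`; if `∑ dim Near(x_j, H) ≥ formal p` at one such scale then the
answer to the problem is yes in weight `p`, and the only near relations between the multiple zeta values at this scale are the
double shuffle relations. If `t(H) = dim H0 p` then either `Near(x, Y)` is the space of the relations for all `Y ≥ H` and all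
points `x = 0, x_1, …, x_m`, or there is an `M ≥ H` such that `Near(x, Y) ⊆ Near(x, H)` for `H ≤ Y ≤ M` and all the points and
`t(Y) < dim H0 p` for `M < Y ≤ M^E`. And `t(H) = dim H0 p` for all large `H` if and only if the dimensions of the spaces of the
relations at the points `0, x_1, …, x_m` sum up to `dim H0 p`.

(3) (Non-real points.) Let the numbers `β_l` be real and `x_i ≠ conj x_j` for all `i`, `j`. For every finite set of nonempty words
`w` the numbers `β_l` and `β_l D_{x_j}(w)` are linearly independent over `ℚ`, with a measure as in (1). So at non-real algebraic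
points there are no relations and no near relations between the damped multiple zeta values of any weights.

The linear independence of the numbers `β_l S_w(x)`, `S_w(x) = ζ(w) - T_w(x)`, over `ℚ` is a theorem of the library.
-/

set_option autoImplicit false

open Module

namespace Pool.Agent.Results.MP_154526_nt.NearRelationsAfterDamping

open Pool.Agent.Q187.ZD.DS (W Z H0 RDS Linear index InH0)

/-- the truncated multiple zeta value: `H_j(k_1, …, k_r)` is the sum over `j ≥ m_1 > … > m_r ≥ 1` -/
noncomputable def H : List ℕ → ℕ → ℂ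
  | [], _ => 1
  | k :: w, j => ∑ i ∈ Finset.range j, H w i / ((i : ℂ) + 1) ^ k

/-- the tail: the sum over `m_1 > j` (here `m_1 = i + j + 1`) -/
noncomputable def tail : List ℕ → ℕ → ℂ
  | [], _ => 0
  | k :: w, j => ∑' i : ℕ, H w (i + j) / ((i : ℂ) + j + 1) ^ k

/-- `T_w(x)` -/
noncomputable def T (w : List ℕ) (x : ℂ) : ℂ := Complex.exp (-x) * ∑' j : ℕ, x ^ j / j.factorial * tail w j

/-- the linear map `D_x` -/
noncomputable def D (x : ℂ) : W →ₗ[ℚ] ℂ := Finsupp.linearCombination ℚ fun w => T (index 0 w) x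

/-- the space of the relations of weight `p` at `x` -/
noncomputable def Rel (p : ℕ) (x : ℂ) : Submodule ℚ W := H0 p ⊓ LinearMap.ker (D x)

/-- the space generated by the near relations of weight `p` at `x`, at the scale `B` -/
noncomputable def Near (p κ : ℕ) (B : ℝ) (x : ℂ) : Submodule ℚ W :=
  Submodule.span ℚ {f | f ∈ H0 p ∧ (∀ w, ∃ b : ℤ, f w = b ∧ |(b : ℝ)| ≤ B) ∧ ‖D x f‖ ≤ 1 / B ^ κ}

/-- the dimension of `H0 p` modulo the double shuffle elements of weight `p` -/
noncomputable def formal (p : ℕ) : ℕ := finrank ℚ ((H0 p).map (RDS p).mkQ)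

/-- the number of independent relations of weight `p` which are not combinations of double shuffle elements -/
noncomputable def missing (p : ℕ) : ℕ := formal p - finrank ℚ ((H0 p).map Z)

/-- the ring of the exponential polynomials -/
noncomputable def expRing : Subalgebra ℚ ℂ := Algebra.adjoin ℚ
  ({z | IsAlgebraic ℚ z} ∪ {z | ∃ b : ℂ, IsAlgebraic ℚ b ∧ z = Complex.exp b})

/-- the numbers `β_l` -/
def Coeffs {q : ℕ} (β : Fin q → ℂ) : Prop := (∀ l, β l ∈ expRing) ∧ LinearIndependent ℚ β

/-- different nonzero algebraic numbers -/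
def Points {m : ℕ} (x : Fin m → ℂ) : Prop := (∀ j, IsAlgebraic ℚ (x j) ∧ x j ≠ 0) ∧ Function.Injective x

/-- linear independence with a measure -/
def Measure {σ : Type} [Fintype σ] (θ : σ → ℂ) : Prop :=
  ∃ (κ : ℕ) (c : ℝ), 0 < c ∧ ∀ B : ℝ, 1 ≤ B → ∀ μ : σ → ℤ, μ ≠ 0 → (∀ i, |(μ i : ℝ)| ≤ B) →
    c / B ^ κ ≤ ‖∑ i, (μ i : ℂ) * θ i‖

/-- the sum `t(B)` of the dimensions of the spaces of the near relations at the points `0, x_1, …, x_m` -/
noncomputable def total {m : ℕ} (p κ : ℕ) (B : ℝ) (x : Fin m → ℂ) : ℕ :=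
  finrank ℚ (Near p κ B 0) + ∑ j, finrank ℚ (Near p κ B (x j))

/-- the law of the near relations of weight `p` -/
def Law {m : ℕ} (E p κ : ℕ) (x : Fin m → ℂ) : Prop :=
  (∃ B₀ : ℝ, ∀ B : ℝ, B₀ ≤ B →
    -- independence
    (∀ f ∈ Near p κ B 0, ∀ g : Fin m → W, (∀ j, g j ∈ Near p κ B (x j)) → f + ∑ j, g j = 0 →
      f = 0 ∧ ∀ j, g j = 0) ∧
    -- relations are near relations at `0`
    H0 p ⊓ LinearMap.ker Z ≤ Near p κ B 0 ∧
    -- bounds
    total p κ B x ≤ finrank ℚ (H0 p) ∧
    missing p + ∑ j, finrank ℚ (Near p κ B (x j)) ≤ formal p ∧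
    -- the criterion
    (formal p ≤ ∑ j, finrank ℚ (Near p κ B (x j)) → Linear p ∧ Near p κ B 0 = H0 p ⊓ RDS p) ∧
    -- the dichotomy
    (total p κ B x = finrank ℚ (H0 p) →
      (∀ Y : ℝ, B ≤ Y → Near p κ Y 0 = Rel p 0 ∧ ∀ j, Near p κ Y (x j) = Rel p (x j)) ∨
      ∃ M : ℝ, B ≤ M ∧
        (∀ Y : ℝ, B ≤ Y → Y ≤ M → Near p κ Y 0 ≤ Near p κ B 0 ∧
          ∀ j, Near p κ Y (x j) ≤ Near p κ B (x j)) ∧
        ∀ Y : ℝ, M < Y → Y ≤ M ^ E → total p κ Y x < finrank ℚ (H0 p))) ∧
  -- the zero-one law
  ((finrank ℚ (Rel p 0) + ∑ j, finrank ℚ (Rel p (x j)) = finrank ℚ (H0 p)) ↔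
    ∃ B₁ : ℝ, ∀ B : ℝ, B₁ ≤ B → total p κ B x = finrank ℚ (H0 p))

open Pool.Agent.N778
open Pool.Agent.H488.W

theorem H_eq (w : List ℕ) (j : ℕ) : H w j = MZ.H w j := by
  induction w generalizing j with
  | nil => rfl
  | cons k w ih =>
    rw [H, MZ.H]
    exact Finset.sum_congr rfl fun i _ => by rw [ih]

theorem tail_eq (w : List ℕ) (j : ℕ) : tail w j = MZ.tl w j := by
  rcases w with _ | ⟨k, w⟩
  · rfl
  · rw [tail, MZ.tl]
    exact tsum_congr fun i => by rw [H_eq]

theorem T_eq (w : List ℕ) (x : ℂ) : T w x = MZ.T w x := by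
  rw [T, MZ.T]
  congr 1
  exact tsum_congr fun j => by rw [tail_eq]

theorem D_eq : D = Dsh.D := by
  funext x
  rw [D, Dsh.D]
  congr 1
  funext w
  exact T_eq _ _

theorem near_eq (p κ : ℕ) (B : ℝ) (x : ℂ) : Near p κ B x = Dsh.Near p κ B x := by
  rw [Near, Dsh.Near, D_eq]

theorem rel_eq (p : ℕ) (x : ℂ) : Rel p x = Dsh.Rel p x := by
  rw [Rel, Dsh.Rel, D_eq]

theorem missing_eq (p : ℕ) : missing p = Pool.Agent.Q189.MV.DSh.missing p := by
  rw [missing, Pool.Agent.Q189.MV.DSh.missing, Pool.Agent.Q189.MV.DSh.map_Z]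
  rfl

/-- **Double shuffle relations and near relations after damping** -/
theorem result (p : ℕ) (hp : 1 ≤ p) :
    -- the point `0`, and the double shuffle elements
    (∀ f ∈ H0 p, D 0 f = (Z f : ℂ)) ∧ (∀ f ∈ RDS p, Z f = 0) ∧ (missing p = 0 ↔ Linear p) ∧
    -- (1)
    (∀ (q m n : ℕ) (β : Fin q → ℂ) (x : Fin m → ℂ) (f : Fin n → W), Coeffs β → Points x →
      (∀ i, f i ∈ H0 p ∧ Z (f i) = 0) → LinearIndependent ℚ f →
      Measure fun o : Fin q × Option (Fin m × Fin n) =>
        β o.1 * o.2.elim 1 fun z => D (x z.1) (f z.2)) ∧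
    -- (2)
    (∀ (m : ℕ) (x : Fin m → ℂ), Points x → ∀ E : ℕ, 2 ≤ E → ∃ κ : ℕ, Law E p κ x) ∧
    -- (3)
    (∀ (q m n : ℕ) (β : Fin q → ℂ) (x : Fin m → ℂ) (w : Fin n → List Bool), Coeffs β → Points x →
      (∀ l, (starRingEnd ℂ) (β l) = β l) → (∀ i j, x i ≠ (starRingEnd ℂ) (x j)) →
      (∀ i, InH0 (w i) ∧ w i ≠ []) → Function.Injective w →
      Measure fun o : Fin q × Option (Fin m × Fin n) =>
        β o.1 * o.2.elim 1 fun z => D (x z.1) (Finsupp.single (w z.2) 1)) := by
  refine ⟨fun f hf => ?_, fun f hf => Pool.Agent.Q189.MV.DSh.Z_RDS hf, ?_,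
    fun q m n β x f hβ hx hf hfi => ?_, fun m x hx E hE => ?_,
    fun q m n β x w hβ hx hβr hxc hw hwi => ?_⟩
  · rw [D_eq]
    exact Dsh.D_zero hp hf
  · rw [missing_eq]
    exact Pool.Agent.Q189.MV.DSh.missing_zero p
  · rw [D_eq]
    exact Dsh.measure_ker hp hβ.1 hβ.2 hx.1 hx.2 (fun i => (hf i).1) hfi (fun i => (hf i).2)
  · obtain ⟨κ, h⟩ := Dsh.law_near hp hx.1 hx.2 E hE
    refine ⟨κ, ?_⟩
    have e : ∀ B, total p κ B x = Dsh.all p κ B x := by
      intro B
      rw [total, Dsh.all, near_eq]
      congr 1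
      exact Finset.sum_congr rfl fun j _ => by rw [near_eq]
    have eN : Near = Dsh.Near := by
      funext p κ B x
      exact near_eq p κ B x
    have eR : Rel = Dsh.Rel := by
      funext p x
      exact rel_eq p x
    have em : missing = Pool.Agent.Q189.MV.DSh.missing := funext missing_eq
    have ef : formal = Pool.Agent.Q189.MV.DSh.formal := rfl
    unfold Law
    simp only [e]
    rw [eN, eR, em, ef]
    exact h
  · have h := Dsh.measure_nonreal hβ.1 hβ.2 hβr hx.1 hx.2 hxc (w := fun i => index 0 (w i))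
      (fun i => Dsh.index_adw (hw i).1 (hw i).2)
      (fun i j hij => hwi (Dsh.index_inj (hw i).1 (hw j).1 hij))
    have e : (fun o : Fin q × Option (Fin m × Fin n) =>
        β o.1 * o.2.elim 1 fun z => D (x z.1) (Finsupp.single (w z.2) 1)) =
        fun o => β o.1 * o.2.elim 1 fun z => MZ.T (index 0 (w z.2)) (x z.1) := by
      funext o
      rcases o with ⟨l, _ | z⟩
      · rfl
      · show β l * D (x z.1) (Finsupp.single (w z.2) 1) = β l * MZ.T (index 0 (w z.2)) (x z.1)
        rw [D, Finsupp.linearCombination_single, one_smul, T_eq]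
    rw [e]
    exact h

end Pool.Agent.Results.MP_154526_nt.NearRelationsAfterDamping
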